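import Pool.Agent.Helper91.AD.LIM

/-!
MP_efd95c_co, directional contractions: row CA1.
-/

set_option autoImplicit false

open scoped MeasureTheory ENNReal
open Complex

noncomputable section

namespace Pool.Agent.Helper91.AD

theorem e_add (θ : ℝ) : AX.e (θ + 2 * Real.pi) = AX.e θ := by
  unfold AX.e
  have : ((θ + 2 * Real.pi : ℝ) : ℂ) * I = (θ : ℂ) * I + 2 * Real.pi * I := by
    push_cast
    ring
  rw [this, Complex.exp_add, Complex.exp_two_pi_mul_I, mul_one]

theorem h_add (S : Set ℂ) (θ : ℝ) : AD.h S (θ + 2 * Real.pi) = AD.h S θ := by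
  unfold AD.h
  rw [e_add]

theorem T_add {n : ℕ} {r : ℝ} {c : Fin n → ℂ} {i : Fin n} {θ : ℝ} (hθ : θ ∈ AX.T r c i) :
    θ + 2 * Real.pi ∈ AX.T r c i := by
  unfold AX.T at hθ ⊢
  show c i + (r : ℂ) * AX.e (θ + 2 * Real.pi) ∈ AX.K r c
  rw [e_add]
  exact hθ

theorem tel (m : ℕ) (f : Fin (m + 1) → ℝ) :
    ∑ k : Fin m, (f k.succ - f k.castSucc) = f (Fin.last m) - f 0 := by
  induction m with
  | zero => simp
  | succ m ih =>
    rw [Fin.sum_univ_castSucc]
    have h1 := ih (fun i => f i.castSucc)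
    have h2 : ∑ i : Fin m, (f (Fin.castSucc i).succ - f (Fin.castSucc (Fin.castSucc i))) =
        ∑ k : Fin m, ((fun i => f (Fin.castSucc i)) k.succ - (fun i => f (Fin.castSucc i)) k.castSucc) := by
      refine Finset.sum_congr rfl (fun i _ => ?_)
      simp only [Fin.succ_castSucc]
    rw [h2, h1]
    simp only [Fin.succ_last, Fin.castSucc_zero]
    ring

theorem st_CA1 (hHULL : AX.ST_HULL) (hPER : AX.ST_PER) (hIAR : AD.ST_IAR)
    (hHCT : AD.ST_HCT) : AD.ST_CA1 := by
  intro n r c hr hinj hT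
  obtain ⟨σ, a, b, hab, hTI, hstep, hlast⟩ := hHULL n r c hr hinj hT
  have hne : (AX.K r c).Nonempty := by
    obtain ⟨θ, hθ⟩ := hT 0
    exact ⟨_, hθ⟩
  have hcont : Continuous (AD.h (AX.K r c)) := hHCT _ (isCompact_K r c) hne
  have hint : ∀ x y : ℝ, IntervalIntegrable (AD.h (AX.K r c)) MeasureTheory.volume x y :=
    fun x y => hcont.intervalIntegrable x y
  have hpi := Real.pi_pos
  -- the measure
  have hPER' := hPER (n + 1) r c (fun i => a (σ.symm i)) hr hinj
  have hsum : ∑ i, MeasureTheory.volume (AX.T r c i ∩ Set.Ico (a (σ.symm i))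
      (a (σ.symm i) + 2 * Real.pi)) = ENNReal.ofReal (∑ k, (b k - a k)) := by
    rw [← Equiv.sum_comp σ]
    rw [ENNReal.ofReal_sum_of_nonneg (fun k _ => by linarith [hab k])]
    refine Finset.sum_congr rfl (fun k _ => ?_)
    rw [Equiv.symm_apply_apply, hTI k, Real.volume_Icc]
  rw [hPER', hsum, ← ENNReal.ofReal_mul hr.le]
  congr 1
  -- the integral
  have hmem : ∀ k, a k ∈ AX.T r c (σ k) := fun k => by
    have : a k ∈ Set.Icc (a k) (b k) := ⟨le_refl _, hab k⟩
    rw [← hTI k] at this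
    exact this.1
  have hsub : ∀ k, Set.Icc (a k) (b k) ⊆ AX.T r c (σ k) := fun k => by
    rw [← hTI k]
    exact Set.inter_subset_left
  set g : Fin (n + 2) → ℝ := fun k => (c (σ k) * (starRingEnd ℂ) (-I * AX.e (a k))).re with hg
  set H : ℝ → ℝ := fun x => ∫ θ in (a 0)..x, AD.h (AX.K r c) θ with hH
  have hHs : ∀ x y : ℝ, ∫ θ in x..y, AD.h (AX.K r c) θ = H y - H x := fun x y => by
    simp only [hH]
    rw [intervalIntegral.integral_interval_sub_left (hint _ _) (hint _ _)]
  have h1 : ∀ k : Fin (n + 1), H (a k.succ) - H (a k.castSucc) =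
      r * (b k.castSucc - a k.castSucc) + (g k.succ - g k.castSucc) := fun k => by
    have := hIAR (n + 1) r c (σ k.castSucc) (σ k.succ) (a k.castSucc) (b k.castSucc) hr
      (hab _) (hsub _) (by rw [hstep k]; exact hmem _)
    rw [hstep k, hHs] at this
    rw [this]
    simp only [hg]
    ring
  have h2 : H (a 0 + 2 * Real.pi) - H (a (Fin.last (n + 1))) =
      r * (b (Fin.last (n + 1)) - a (Fin.last (n + 1))) + (g 0 - g (Fin.last (n + 1))) := by
    have := hIAR (n + 1) r c (σ (Fin.last (n + 1))) (σ 0) (a (Fin.last (n + 1)))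
      (b (Fin.last (n + 1))) hr (hab _) (hsub _) (by rw [hlast]; exact T_add (hmem _))
    rw [hlast, hHs] at this
    rw [this]
    simp only [hg]
    rw [e_add]
    ring
  have h3 : ∫ θ in (0 : ℝ)..(2 * Real.pi), AD.h (AX.K r c) θ = H (a 0 + 2 * Real.pi) - H (a 0) := by
    rw [← hHs]
    have hper : Function.Periodic (AD.h (AX.K r c)) (2 * Real.pi) := h_add _
    have := hper.intervalIntegral_add_eq 0 (a 0)
    rw [zero_add] at this
    exact this
  rw [h3]
  have h4 : H (a (Fin.last (n + 1))) - H (a 0) =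
      ∑ k : Fin (n + 1), (r * (b k.castSucc - a k.castSucc)) + (g (Fin.last (n + 1)) - g 0) := by
    rw [← tel (n + 1) (fun k => H (a k)), ← tel (n + 1) g, ← Finset.sum_add_distrib]
    exact Finset.sum_congr rfl (fun k _ => h1 k)
  rw [Fin.sum_univ_castSucc, mul_add, Finset.mul_sum]
  linarith

end Pool.Agent.Helper91.AD
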