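import Pool.Agent.Helper91.AD.LIM

/-!
MP_efd95c_co, directional contractions: row CAU.
-/

set_option autoImplicit false

open scoped MeasureTheory ENNReal
open Complex

noncomputable section

namespace Pool.Agent.Helper91.AD

theorem e_conj_mul (θ : ℝ) : AX.e θ * (starRingEnd ℂ) (AX.e θ) = 1 := by
  rw [Complex.mul_conj, Complex.normSq_eq_norm_sq, norm_e]
  simp

theorem h_ball {r : ℝ} (hr : 0 < r) (c : ℂ) (θ : ℝ) :
    AD.h (Metric.closedBall c r) θ = (c * (starRingEnd ℂ) (AX.e θ)).re + r := by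
  have hne : (Metric.closedBall c r).Nonempty := ⟨c, Metric.mem_closedBall_self hr.le⟩
  refine le_antisymm (h_le hne θ (fun z hz => ?_)) ?_
  · have h5 : ((z - c) * (starRingEnd ℂ) (AX.e θ)).re ≤ ‖z - c‖ := re_le_of_norm _ _
    rw [← dist_eq_norm] at h5
    rw [Metric.mem_closedBall] at hz
    have h6 : (z * (starRingEnd ℂ) (AX.e θ)).re = ((z - c) * (starRingEnd ℂ) (AX.e θ)).re +
        (c * (starRingEnd ℂ) (AX.e θ)).re := by
      rw [← Complex.add_re]
      congr 1
      ring
    rw [h6]
    linarith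
  · have hz : c + (r : ℂ) * AX.e θ ∈ Metric.closedBall c r := by
      rw [Metric.mem_closedBall, dist_eq_norm]
      have : c + (r : ℂ) * AX.e θ - c = (r : ℂ) * AX.e θ := by ring
      rw [this, norm_mul, norm_e, Complex.norm_real, Real.norm_of_nonneg hr.le, mul_one]
    have h1 := le_h (isCompact_closedBall c r) θ hz
    have h2 : (c + (r : ℂ) * AX.e θ) * (starRingEnd ℂ) (AX.e θ) =
        c * (starRingEnd ℂ) (AX.e θ) + (r : ℂ) := by
      have := e_conj_mul θ
      linear_combination (r : ℂ) * this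
    rw [h2, Complex.add_re, Complex.ofReal_re] at h1
    exact h1

theorem e_eq (θ : ℝ) : AX.e θ = (Real.cos θ : ℂ) + (Real.sin θ : ℂ) * I := by
  unfold AX.e
  rw [Complex.exp_mul_I, Complex.ofReal_cos, Complex.ofReal_sin]

theorem re_eq (c : ℂ) (θ : ℝ) : (c * (starRingEnd ℂ) (AX.e θ)).re =
    c.re * Real.cos θ + c.im * Real.sin θ := by
  rw [e_eq]
  simp only [map_add, Complex.conj_ofReal, map_mul, Complex.conj_I, Complex.mul_re, Complex.add_re,
    Complex.ofReal_re, Complex.add_im, Complex.ofReal_im, Complex.mul_im, Complex.neg_re,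
    Complex.I_re, Complex.neg_im, Complex.I_im]
  ring

theorem int_ball {r : ℝ} (hr : 0 < r) (c : ℂ) :
    ∫ θ in (0 : ℝ)..(2 * Real.pi), AD.h (Metric.closedBall c r) θ = r * (2 * Real.pi) := by
  have h1 : (fun θ : ℝ => AD.h (Metric.closedBall c r) θ) =
      fun θ => (c.re * Real.cos θ + c.im * Real.sin θ) + r := by
    funext θ
    rw [h_ball hr, re_eq]
  simp only [h1]
  rw [intervalIntegral.integral_add (by apply Continuous.intervalIntegrable; fun_prop)
    (by apply Continuous.intervalIntegrable; fun_prop),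
    intervalIntegral.integral_add (by apply Continuous.intervalIntegrable; fun_prop)
    (by apply Continuous.intervalIntegrable; fun_prop),
    intervalIntegral.integral_const_mul, intervalIntegral.integral_const_mul,
    integral_cos, integral_sin, intervalIntegral.integral_const]
  simp only [Real.sin_two_pi, Real.sin_zero, Real.cos_two_pi, Real.cos_zero, smul_eq_mul]
  ring

theorem K_one {r : ℝ} (c : Fin 1 → ℂ) : AX.K r c = Metric.closedBall (c 0) r := by
  unfold AX.K
  ext x
  simp [Fin.forall_fin_one]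

theorem T_one {r : ℝ} (hr : 0 < r) (c : Fin 1 → ℂ) : AX.T r c 0 = Set.univ := by
  refine Set.eq_univ_of_forall (fun θ => ?_)
  unfold AX.T
  show c 0 + (r : ℂ) * AX.e θ ∈ AX.K r c
  rw [K_one, Metric.mem_closedBall, dist_eq_norm]
  have : c 0 + (r : ℂ) * AX.e θ - c 0 = (r : ℂ) * AX.e θ := by ring
  rw [this, norm_mul, norm_e, Complex.norm_real, Real.norm_of_nonneg hr.le, mul_one]

theorem cau_one (hPER : AX.ST_PER) {r : ℝ} (hr : 0 < r) (c : Fin 1 → ℂ) :
    μH[1] (frontier (AX.K r c)) =
      ENNReal.ofReal (∫ θ in (0 : ℝ)..(2 * Real.pi), AD.h (AX.K r c) θ) := by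
  rw [hPER 0 r c (fun _ => 0) hr (Function.injective_of_subsingleton c)]
  rw [Fin.sum_univ_one, T_one hr c, Set.univ_inter, Real.volume_Ico, K_one, int_ball hr,
    ← ENNReal.ofReal_mul hr.le]
  congr 2
  ring

theorem _root_.AD.st_CAU (hMIN : AX.ST_MIN) (hPER : AX.ST_PER) (hCA1 : AD.ST_CA1) :
    AD.ST_CAU := by
  intro n r c hr hne
  obtain ⟨m, g, hinj, -, hK, hT⟩ := hMIN (n + 1) r c Finset.univ hr hne
    (by unfold AX.K; simp)
  rw [← hK]
  rcases m with _ | _ | m
  · exfalso
    have h1 : AX.K r (fun i : Fin 0 => c (g i)) = Set.univ := by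
      unfold AX.K
      simp
    rw [h1] at hK
    have h2 := isCompact_K r c
    rw [← hK] at h2
    exact noncompact_univ ℂ h2
  · exact cau_one hPER hr _
  · exact hCA1 m r _ hr hinj hT

end Pool.Agent.Helper91.AD
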