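import Pool.Agent.Helper12.AD.Stmts

/-!
MP_efd95c_co, directional contractions: row LIM.
-/

set_option autoImplicit false

open scoped MeasureTheory ENNReal
open Complex

noncomputable section

namespace Pool.Agent.Helper91.AD

theorem norm_e (θ : ℝ) : ‖AX.e θ‖ = 1 := by
  unfold AX.e
  exact Complex.norm_exp_ofReal_mul_I θ

theorem isClosed_K {n : ℕ} (r : ℝ) (c : Fin n → ℂ) : IsClosed (AX.K r c) := by
  unfold AX.K
  exact isClosed_iInter (fun i => Metric.isClosed_closedBall)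

theorem isCompact_K {n : ℕ} (r : ℝ) (c : Fin (n + 1) → ℂ) : IsCompact (AX.K r c) := by
  refine IsCompact.of_isClosed_subset (ProperSpace.isCompact_closedBall (c 0) r) (isClosed_K r c) ?_
  intro x hx
  unfold AX.K at hx
  exact Set.mem_iInter.1 hx 0

theorem re_le_of_norm (z : ℂ) (θ : ℝ) :
    (z * (starRingEnd ℂ) (AX.e θ)).re ≤ ‖z‖ := by
  refine (Complex.re_le_norm _).trans ?_
  rw [norm_mul, RCLike.norm_conj, norm_e, mul_one]

theorem continuous_re (θ : ℝ) : Continuous (fun z : ℂ => (z * (starRingEnd ℂ) (AX.e θ)).re) := by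
  fun_prop

theorem bdd {S : Set ℂ} (hS : IsCompact S) (θ : ℝ) :
    BddAbove ((fun z : ℂ => (z * (starRingEnd ℂ) (AX.e θ)).re) '' S) :=
  (hS.image (continuous_re θ)).bddAbove

theorem le_h {S : Set ℂ} (hS : IsCompact S) (θ : ℝ) {z : ℂ} (hz : z ∈ S) :
    (z * (starRingEnd ℂ) (AX.e θ)).re ≤ AD.h S θ :=
  le_csSup (bdd hS θ) ⟨z, hz, rfl⟩

theorem h_le {S : Set ℂ} (hne : S.Nonempty) (θ : ℝ) {M : ℝ}
    (hM : ∀ z ∈ S, (z * (starRingEnd ℂ) (AX.e θ)).re ≤ M) : AD.h S θ ≤ M := by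
  refine csSup_le (hne.image _) ?_
  rintro _ ⟨z, hz, rfl⟩
  exact hM z hz

/-- compactness along a convergent sequence of configurations -/
theorem sub_lim {n : ℕ} {r : ℝ} {u : ℕ → Fin (n + 1) → ℂ} {q : Fin (n + 1) → ℂ}
    (hu : Filter.Tendsto u Filter.atTop (nhds q)) (x : ℕ → ℂ) (hx : ∀ k, x k ∈ AX.K r (u k)) :
    ∃ z ∈ AX.K r q, ∃ φ : ℕ → ℕ, StrictMono φ ∧
      Filter.Tendsto (x ∘ φ) Filter.atTop (nhds z) := by
  have hui : ∀ i, Filter.Tendsto (fun k => u k i) Filter.atTop (nhds (q i)) := fun i =>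
    (tendsto_pi_nhds.1 hu) i
  have hxi : ∀ k i, dist (x k) (u k i) ≤ r := fun k i => by
    have := hx k
    unfold AX.K at this
    exact Metric.mem_closedBall.1 (Set.mem_iInter.1 this i)
  obtain ⟨M, hM⟩ := (Metric.isBounded_range_of_tendsto _ (hui 0)).subset_closedBall (q 0)
  have hb : ∀ k, x k ∈ Metric.closedBall (q 0) (r + M) := fun k => by
    have h1 : u k 0 ∈ Metric.closedBall (q 0) M := hM ⟨k, rfl⟩
    rw [Metric.mem_closedBall] at h1 ⊢
    linarith [dist_triangle (x k) (u k 0) (q 0), hxi k 0]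
  obtain ⟨z, -, φ, hφ, hz⟩ := (isCompact_closedBall (q 0) (r + M)).tendsto_subseq hb
  refine ⟨z, ?_, φ, hφ, hz⟩
  unfold AX.K
  refine Set.mem_iInter.2 (fun i => ?_)
  rw [Metric.mem_closedBall]
  have h2 : Filter.Tendsto (fun k => dist ((x ∘ φ) k) (u (φ k) i)) Filter.atTop
      (nhds (dist z (q i))) :=
    hz.dist ((hui i).comp hφ.tendsto_atTop)
  exact le_of_tendsto' h2 (fun k => hxi (φ k) i)

theorem _root_.AD.st_LIM (hHCT : AD.ST_HCT) : AD.ST_LIM := by
  intro n r u q J hr hu hk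
  have hne : (AX.K r q).Nonempty := by
    choose x hx using fun k => (hk k).1
    obtain ⟨z, hz, -⟩ := sub_lim hu x hx
    exact ⟨z, hz⟩
  refine ⟨hne, ?_⟩
  have key : ∀ δ : ℝ, 0 < δ → ∃ k, AX.K r (u k) ⊆ Metric.thickening δ (AX.K r q) := by
    intro δ hδ
    by_contra hcon
    push Not at hcon
    have hx : ∀ k, ∃ x, x ∈ AX.K r (u k) ∧ x ∉ Metric.thickening δ (AX.K r q) := fun k =>
      Set.not_subset.1 (hcon k)
    choose x hx1 hx2 using hx
    obtain ⟨z, hz, φ, -, hφ⟩ := sub_lim hu x hx1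
    have h1 : ∀ᶠ k in Filter.atTop, dist ((x ∘ φ) k) z < δ :=
      (Metric.tendsto_nhds.1 hφ) δ hδ
    obtain ⟨k, hk1⟩ := h1.exists
    exact hx2 (φ k) (Metric.mem_thickening_iff.2 ⟨z, hz, hk1⟩)
  have hcq : Continuous (AD.h (AX.K r q)) := hHCT _ (isCompact_K r q) hne
  refine le_of_forall_pos_le_add (fun ε hε => ?_)
  have hpi := Real.pi_pos
  obtain ⟨k, hk1⟩ := key (ε / (2 * Real.pi)) (by positivity)
  have hcu : Continuous (AD.h (AX.K r (u k))) := hHCT _ (isCompact_K r (u k)) (hk k).1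
  refine (hk k).2.trans ?_
  have h3 : ∫ θ in (0 : ℝ)..(2 * Real.pi), AD.h (AX.K r (u k)) θ ≤
      ∫ θ in (0 : ℝ)..(2 * Real.pi), (AD.h (AX.K r q) θ + ε / (2 * Real.pi)) := by
    refine intervalIntegral.integral_mono_on (by positivity) (hcu.intervalIntegrable _ _)
      ((hcq.add continuous_const).intervalIntegrable _ _) (fun θ _ => ?_)
    refine h_le (hk k).1 θ (fun x hx => ?_)
    obtain ⟨z, hz, hxz⟩ := Metric.mem_thickening_iff.1 (hk1 hx)
    have h4 := le_h (isCompact_K r q) θ hz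
    have h5 : ((x - z) * (starRingEnd ℂ) (AX.e θ)).re ≤ ‖x - z‖ := re_le_of_norm _ _
    rw [← dist_eq_norm] at h5
    have h6 : (x * (starRingEnd ℂ) (AX.e θ)).re = ((x - z) * (starRingEnd ℂ) (AX.e θ)).re +
        (z * (starRingEnd ℂ) (AX.e θ)).re := by
      rw [← Complex.add_re]
      congr 1
      ring
    rw [h6]
    linarith
  refine h3.trans (le_of_eq ?_)
  rw [intervalIntegral.integral_add (hcq.intervalIntegrable _ _)
    (continuous_const.intervalIntegrable _ _)]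
  rw [intervalIntegral.integral_const]
  congr 1
  rw [smul_eq_mul]
  field_simp
  ring

end Pool.Agent.Helper91.AD
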