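import Pool.Agent.Helper27.AD.Stmts

/-!
MP_8312c9_nt, AdelicSections, module CMU: classes with a given divisor in a CM field.
-/

set_option autoImplicit false

open scoped Classical

namespace Pool.Agent.Helper27.AD

open NumberField nonZeroDivisors

section cmu

variable {F : Type} [Field F] [NumberField F]

/-- a unit divided by its conjugate is a root of unity -/
theorem cmu_unit (σ : F ≃+* F)
    (hσ : ∀ (φ : F →+* ℂ) (x : F), φ (σ x) = starRingEnd ℂ (φ x)) (u : (𝓞 F)ˣ) :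
    ((u : F) / σ (u : F)) ^ Units.torsionOrder F = 1 := by
  have hint : IsIntegral ℤ ((u : F) / σ (u : F)) := by
    rw [div_eq_mul_inv]
    refine (RingOfIntegers.isIntegral_coe (u : 𝓞 F)).mul ?_
    have h1 : (σ (u : F))⁻¹ = σ (((u⁻¹ : (𝓞 F)ˣ) : 𝓞 F) : F) := by
      rw [← map_inv₀]
      congr 1
      exact (eq_inv_of_mul_eq_one_right (by
        rw [← map_mul, ← Units.val_mul, mul_inv_cancel, Units.val_one, map_one])).symm
    rw [h1]
    exact (RingOfIntegers.isIntegral_coe ((u⁻¹ : (𝓞 F)ˣ) : 𝓞 F)).map σ.toRingHom.toIntAlgHom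
  have hne : (u : F) ≠ 0 := Units.coe_ne_zero u
  have habs : ∀ φ : F →+* ℂ, ‖φ ((u : F) / σ (u : F))‖ = 1 := by
    intro φ
    rw [map_div₀, hσ, norm_div, RCLike.norm_conj, div_self]
    exact norm_ne_zero_iff.2 ((map_ne_zero φ).2 hne)
  obtain ⟨n, hn, h⟩ := Embeddings.pow_eq_one_of_norm_eq_one F ℂ hint habs
  obtain ⟨z, hz⟩ : ∃ z : 𝓞 F, algebraMap (𝓞 F) F z = (u : F) / σ (u : F) := ⟨⟨_, hint⟩, rfl⟩
  have hzn : z ^ n = 1 := by
    apply RingOfIntegers.coe_injective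
    rw [map_pow, map_one, hz]
    exact h
  obtain ⟨v, hv⟩ : ∃ v : (𝓞 F)ˣ, (v : 𝓞 F) = z := ⟨Units.ofPowEqOne z n hzn hn.ne', rfl⟩
  have hvt : v ∈ Units.torsion F := by
    rw [Units.torsion, CommGroup.mem_torsion, isOfFinOrder_iff_pow_eq_one]
    exact ⟨n, hn, Units.ext (by rw [Units.val_pow_eq_pow_val, hv, hzn, Units.val_one])⟩
  have h2 : (⟨v, hvt⟩ : Units.torsion F) ^ Units.torsionOrder F = 1 := by
    rw [Units.torsionOrder]
    exact pow_card_eq_one'
  have h3 : v ^ Units.torsionOrder F = 1 := congrArg Subtype.val h2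
  rw [← hz, ← hv]
  have h4 := congrArg (fun x : (𝓞 F)ˣ => ((x : 𝓞 F) : F)) h3
  simpa using h4

/-- a fractional ideal has a principal power, with exponent independent of the ideal -/
theorem cmu_ideal (I : FractionalIdeal (𝓞 F)⁰ F) (hI : I ≠ 0) :
    ∃ a : F, a ≠ 0 ∧ I ^ Fintype.card (ClassGroup (𝓞 F)) = FractionalIdeal.spanSingleton (𝓞 F)⁰ a := by
  have h1 : ClassGroup.mk (K := F) (Units.mk0 I hI ^ Fintype.card (ClassGroup (𝓞 F))) = 1 := by
    rw [map_pow, pow_card_eq_one]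
  rw [ClassGroup.mk_eq_one_iff] at h1
  obtain ⟨a, ha⟩ := (FractionalIdeal.isPrincipal_iff _).1 h1
  rw [Units.val_pow_eq_pow_val, Units.val_mk0] at ha
  refine ⟨a, ?_, ha⟩
  rintro rfl
  rw [FractionalIdeal.spanSingleton_zero] at ha
  exact pow_ne_zero _ hI ha

end cmu

theorem st_CMU : ST_CMU := by
  intro F _ _ σ hσ I hI
  obtain ⟨a, ha, hIa⟩ := cmu_ideal I hI
  set h := Fintype.card (ClassGroup (𝓞 F)) with hh
  set w := Units.torsionOrder F with hw
  have hσ0 : ∀ x : F, x ≠ 0 → σ x ≠ 0 := fun x hx => (map_ne_zero σ).2 hx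
  refine ⟨h * w, Nat.mul_pos Fintype.card_pos (Units.torsionOrder_pos F), (a / σ a) ^ w,
    pow_ne_zero _ (div_ne_zero ha (hσ0 a ha)), ?_⟩
  rintro n hn c hc ⟨J, hJ⟩
  have hJ0 : J ≠ 0 := by
    rintro rfl
    rw [zero_pow hn.ne', mul_zero, FractionalIdeal.spanSingleton_eq_zero_iff] at hJ
    exact hc hJ
  obtain ⟨e, he, hJe⟩ := cmu_ideal J hJ0
  have h1 : FractionalIdeal.spanSingleton (𝓞 F)⁰ (c ^ h) =
      FractionalIdeal.spanSingleton (𝓞 F)⁰ (a * e ^ n) := by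
    rw [← FractionalIdeal.spanSingleton_pow, hJ, mul_pow, ← pow_mul, mul_comm n h, pow_mul, hIa, hJe,
      FractionalIdeal.spanSingleton_pow, FractionalIdeal.spanSingleton_mul_spanSingleton]
  obtain ⟨u, hu⟩ : ∃ u : (𝓞 F)ˣ, c ^ h = (u : F) * (a * e ^ n) := by
    obtain ⟨u, hu⟩ := FractionalIdeal.spanSingleton_eq_spanSingleton.1 h1.symm
    exact ⟨u, by rw [← hu, Units.smul_def, Algebra.smul_def]⟩
  have h4 : (c / σ c) ^ h = ((u : F) / σ (u : F)) * (a / σ a) * (e / σ e) ^ n := by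
    rw [div_pow, ← map_pow, hu, map_mul, map_mul, map_pow, div_pow]
    have h5 : σ (u : F) ≠ 0 := hσ0 _ (Units.coe_ne_zero u)
    have h6 := hσ0 a ha
    have h7 := pow_ne_zero n (hσ0 e he)
    field_simp
  refine ⟨(e / σ e) ^ w, ?_⟩
  rw [pow_mul, h4, mul_pow, mul_pow, cmu_unit σ hσ u]
  ring

end Pool.Agent.Helper27.AD
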