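import Pool.Agent.Helper27.AD.Stmts
import Pool.Agent.Helper26.ZL.DIVC

/-!
MP_8312c9_nt, AdelicSections, module IDL: local data for the valuations give ideals.
-/

set_option autoImplicit false

open scoped Classical

namespace Pool.Agent.Helper27.AD

open Pool.Agent.Helper13.ZL
open IsDedekindDomain FractionalIdeal nonZeroDivisors

section idl

variable {R : Type} [CommRing R] [IsDedekindDomain R] {K : Type} [Field K] [Algebra R K] [IsFractionRing R K]

/-- a fractional ideal whose counts are divisible by `n` is an `n`-th power -/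
theorem idl_root {A : FractionalIdeal R⁰ K} (hA : A ≠ 0) {n : ℕ}
    (hdvd : ∀ v : HeightOneSpectrum R, (n : ℤ) ∣ count K v A) :
    ∃ J : FractionalIdeal R⁰ K, A = J ^ n := by
  have hfin : (Function.mulSupport fun v : HeightOneSpectrum R =>
      (v.asIdeal : FractionalIdeal R⁰ K) ^ (count K v A / n)).Finite := by
    refine (Filter.eventually_cofinite.1 (finite_factors (K := K) A)).subset ?_
    intro v hv
    show ¬ count K v A = 0
    intro h0
    apply hv
    show (v.asIdeal : FractionalIdeal R⁰ K) ^ (count K v A / n) = 1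
    rw [h0, Int.zero_ediv, zpow_zero]
  refine ⟨∏ᶠ v : HeightOneSpectrum R, (v.asIdeal : FractionalIdeal R⁰ K) ^ (count K v A / n), ?_⟩
  rw [finprod_pow hfin, ← finprod_heightOneSpectrum_factorization' K hA]
  refine finprod_congr fun v => ?_
  rw [← zpow_natCast, ← zpow_mul]
  congr 1
  rw [finprod_heightOneSpectrum_factorization' K hA]
  exact (Int.ediv_mul_cancel (hdvd v)).symm

end idl

theorem st_IDL : ST_IDL := by
  intro k _ _ S hS r hr hrS
  set ex : Pl k → ℤ := fun v => count k v (spanSingleton _ (r v)) with hex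
  have hev : ∀ᶠ v : Pl k in Filter.cofinite, ex v = 0 := by
    rw [Filter.eventually_cofinite]
    refine hS.subset fun v hv => ?_
    by_contra h
    apply hv
    rw [hex]
    show count k v (spanSingleton _ (r v)) = 0
    rw [hrS v h, spanSingleton_one, count_one]
  set I : FractionalIdeal (nonZeroDivisors (NumberField.RingOfIntegers k)) k :=
    ∏ᶠ v : Pl k, (v.asIdeal : FractionalIdeal (nonZeroDivisors (NumberField.RingOfIntegers k)) k) ^ ex v
    with hI
  have hI0 : I ≠ 0 := finprod_induction (p := fun A => A ≠ 0) one_ne_zero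
    (fun _ _ => mul_ne_zero) (fun v => zpow_ne_zero _ (coeIdeal_ne_zero.2 v.ne_bot))
  have hc : ∀ v : Pl k, count k v I = ex v := fun v => count_finprod k v ex hev
  refine ⟨I, hI0, ?_⟩
  intro n hn b hb h
  have hb' : spanSingleton (nonZeroDivisors (NumberField.RingOfIntegers k)) b ≠ 0 :=
    spanSingleton_ne_zero_iff.2 hb
  have hA : spanSingleton (nonZeroDivisors (NumberField.RingOfIntegers k)) b * I⁻¹ ≠ 0 :=
    mul_ne_zero hb' (inv_ne_zero hI0)
  obtain ⟨J, hJ⟩ := idl_root hA (n := n) (by
    intro v
    obtain ⟨t, ht⟩ := h v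
    have ht0 : t ≠ 0 := by
      rintro rfl
      rw [zero_pow hn.ne', mul_zero, map_zero] at ht
      exact zero_ne_one ht
    have hbr : b / r v ≠ 0 := div_ne_zero hb (hr v)
    rw [divc_val v (mul_ne_zero hbr (pow_ne_zero n ht0)), ← WithZero.exp_zero, WithZero.exp_inj,
      neg_eq_zero, ← spanSingleton_mul_spanSingleton,
      count_mul k v (spanSingleton_ne_zero_iff.2 hbr) (spanSingleton_ne_zero_iff.2 (pow_ne_zero n ht0)),
      ← spanSingleton_pow, count_pow] at ht
    have e1 : count k v (spanSingleton (nonZeroDivisors (NumberField.RingOfIntegers k)) b) =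
        count k v (spanSingleton _ (b / r v)) + ex v := by
      rw [hex, ← count_mul k v (spanSingleton_ne_zero_iff.2 hbr) (spanSingleton_ne_zero_iff.2 (hr v)),
        spanSingleton_mul_spanSingleton, div_mul_cancel₀ _ (hr v)]
    rw [count_mul k v hb' (inv_ne_zero hI0), count_inv, hc v, e1]
    exact ⟨-(count k v (spanSingleton _ t)), by linarith⟩)
  refine ⟨J, ?_⟩
  rw [← hJ, mul_comm, mul_assoc, inv_mul_cancel₀ hI0, mul_one]

end Pool.Agent.Helper27.AD
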