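import Pool.Agent.Helper27.AD.Stmts2
import Pool.Agent.Helper91.AD.CMU

/-!
MP_8312c9_nt, AdelicSections, module CMF: classes with a given divisor in a number field with finite unit group.
-/

set_option autoImplicit false

open scoped Classical

namespace Pool.Agent.Helper27.AD

open NumberField nonZeroDivisors

theorem st_CMF : ST_CMF := by
  intro F _ _ hfin I hI
  obtain ⟨a, ha, hIa⟩ := cmu_ideal I hI
  set h := Fintype.card (ClassGroup (𝓞 F)) with hh
  set w := Nat.card (𝓞 F)ˣ with hw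
  have hw0 : 0 < w := Nat.card_pos
  refine ⟨h * w, Nat.mul_pos Fintype.card_pos hw0, a ^ w, pow_ne_zero _ ha, ?_⟩
  rintro n hn c hc ⟨J, hJ⟩
  have hJ0 : J ≠ 0 := by
    rintro rfl
    rw [zero_pow hn.ne', mul_zero, FractionalIdeal.spanSingleton_eq_zero_iff] at hJ
    exact hc hJ
  obtain ⟨e, he, hJe⟩ := cmu_ideal J hJ0
  have h1 : FractionalIdeal.spanSingleton (𝓞 F)⁰ (c ^ h) =
      FractionalIdeal.spanSingleton (𝓞 F)⁰ (a * e ^ n) := by
    rw [← FractionalIdeal.spanSingleton_pow, hJ, mul_pow, ← pow_mul, mul_comm n h, pow_mul, hIa, hJe,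
      FractionalIdeal.spanSingleton_pow, FractionalIdeal.spanSingleton_mul_spanSingleton]
  obtain ⟨u, hu⟩ := FractionalIdeal.spanSingleton_eq_spanSingleton.1 h1.symm
  rw [Units.smul_def, Algebra.smul_def] at hu
  have h2 : (algebraMap (𝓞 F) F (u : 𝓞 F)) ^ w = 1 := by
    rw [← map_pow, ← Units.val_pow_eq_pow_val, hw, pow_card_eq_one', Units.val_one, map_one]
  refine ⟨e ^ w, ?_⟩
  rw [pow_mul, ← hu, mul_pow, h2, mul_pow]
  ring

end Pool.Agent.Helper27.AD
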